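import Pool.Agent.H.MP_2786f0_ag.h70.R.Res

/-!
# The resultant of a weighted homogeneous system with parameters
-/

namespace Pool.Agent.H.MP_2786f0_ag.h70

open MvPolynomial

/-- The exponent of a monomial of degree `d` as an index. -/
theorem exists_mon {n d : ℕ} (μ : Fin n →₀ ℕ) (h : ∑ i, μ i = d) :
    ∃ ν : Mon n d, ∀ i, (ν.1 i : ℕ) = μ i := by
  refine ⟨⟨fun i => ⟨μ i, ?_⟩, ?_⟩, fun i => rfl⟩
  · have := Finset.single_le_sum (f := fun i => μ i) (fun _ _ => Nat.zero_le _) (Finset.mem_univ i)
    omega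
  · exact h

/-- The exponent as a finitely supported function. -/
noncomputable def toF {n d : ℕ} (ν : Mon n d) : Fin n →₀ ℕ :=
  Finsupp.equivFunOnFinite.symm fun i => (ν.1 i : ℕ)

theorem toF_apply {n d : ℕ} (ν : Mon n d) (i : Fin n) : toF ν i = (ν.1 i : ℕ) := rfl

theorem toF_injective {n d : ℕ} : Function.Injective (toF (n := n) (d := d)) := by
  intro ν ν' h
  apply Subtype.ext
  funext i
  apply Fin.ext
  exact DFunLike.congr_fun h i

/-- A homogeneous polynomial is the sum over its exponents. -/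
theorem eval_eq_sum_mon {R : Type*} [CommRing R] {n : ℕ} (d : ℕ) (P : MvPolynomial (Fin n) R)
    (hP : P.IsHomogeneous d) (u : Fin n → R) :
    eval u P = ∑ ν : Mon n d, P.coeff (toF ν) * ∏ i, u i ^ (ν.1 i : ℕ) := by
  classical
  rw [eval_eq']
  symm
  have h1 : ∀ ν : Mon n d, P.coeff (toF ν) * ∏ i, u i ^ (ν.1 i : ℕ) =
      P.coeff (toF ν) * ∏ i, u i ^ (toF ν i) := fun ν => rfl
  rw [Finset.sum_congr rfl fun ν _ => h1 ν]
  rw [← Finset.sum_image (f := fun μ => P.coeff μ * ∏ i, u i ^ (μ i))
    (g := fun ν : Mon n d => toF ν) (fun ν _ ν' _ h => toF_injective h)]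
  symm
  apply Finset.sum_subset
  · intro μ hμ
    have h2 := hP (mem_support_iff.1 hμ)
    rw [Finsupp.weight_apply, Finsupp.sum_fintype _ _ (fun _ => by simp)] at h2
    obtain ⟨ν, hν⟩ := exists_mon (d := d) μ (by simpa using h2)
    rw [Finset.mem_image]
    refine ⟨ν, Finset.mem_univ _, ?_⟩
    ext i
    exact hν i
  · intro μ _ hμ
    rw [notMem_support_iff.1 hμ, zero_mul]

theorem eval_map_aeval {k : Type*} [Field k] {τ ι ι' : Type*} (x : τ → k) (v : ι' → k)
    (g : ι → MvPolynomial ι' (MvPolynomial τ k)) (E : MvPolynomial ι (MvPolynomial τ k)) :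
    eval v (map (eval x) (aeval g E)) = eval (fun i => eval v (map (eval x) (g i)))
      (map (eval x) E) := by
  induction E using MvPolynomial.induction_on with
  | C a =>
    rw [aeval_C, MvPolynomial.algebraMap_eq, map_C, map_C, eval_C, eval_C]
  | add p q hp hq => rw [map_add, map_add, map_add, hp, hq, map_add, map_add]
  | mul_X p i hp =>
    rw [map_mul, map_mul, map_mul, hp, aeval_X, map_mul, map_X, map_mul, eval_X]

/-- **The resultant** of a square system of weighted homogeneous equations whose coefficients are polynomials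
in parameters `x`: it vanishes at the `x` for which there is a solution other than `0`. -/
theorem wres {k : Type*} [Field k] [IsAlgClosed k] {τ ι J : Type*} [Fintype ι] [Fintype J]
    (hcard : Fintype.card ι = Fintype.card J) (a : ι → ℕ) (ha : ∀ i, 1 ≤ a i) (m : J → ℕ)
    (hm : ∀ j, 1 ≤ m j) (E : J → MvPolynomial ι (MvPolynomial τ k))
    (hE : ∀ j, (E j).IsWeightedHomogeneous a (m j)) :
    ∃ ρ : MvPolynomial τ k, ∀ x : τ → k, eval x ρ = 0 ↔
      ∃ u : ι → k, u ≠ 0 ∧ ∀ j, eval u (map (eval x) (E j)) = 0 := by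
  classical
  set n := Fintype.card ι with hn
  have e1 : ι ≃ Fin n := Fintype.equivFin ι
  have e2 : J ≃ Fin n := (Fintype.equivFin J).trans (finCongr hcard.symm)
  -- the forms
  set G : Fin n → MvPolynomial (Fin n) (MvPolynomial τ k) := fun l =>
    aeval (fun i => X (e1 i) ^ a i) (E (e2.symm l)) with hG
  have hGh : ∀ l, (G l).IsHomogeneous (m (e2.symm l)) := by
    intro l
    rw [hG]
    beta_reduce
    rw [aeval_def, eval₂_eq']
    refine IsHomogeneous.sum _ _ _ fun μ hμ => ?_
    have h1 := hE (e2.symm l) (mem_support_iff.1 hμ)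
    rw [Finsupp.weight_apply, Finsupp.sum_fintype _ _ (fun _ => by simp)] at h1
    have h2 : m (e2.symm l) = 0 + ∑ i, a i * μ i := by
      rw [zero_add, ← h1]
      refine Finset.sum_congr rfl fun i _ => ?_
      rw [smul_eq_mul, mul_comm]
    rw [h2]
    refine (isHomogeneous_C _ _).mul ?_
    refine IsHomogeneous.prod _ _ _ fun i _ => ?_
    have h3 := ((isHomogeneous_X (MvPolynomial τ k) (e1 i)).pow (a i)).pow (μ i)
    rwa [one_mul] at h3
  obtain ⟨ρ₀, hρ₀⟩ := res (k := k) (fun l => m (e2.symm l)) (fun l => hm _)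
  refine ⟨aeval (fun c : Coef (fun l => m (e2.symm l)) => (G c.1).coeff (toF c.2)) ρ₀,
    fun x => ?_⟩
  have h1 : eval x (aeval (fun c : Coef (fun l => m (e2.symm l)) => (G c.1).coeff (toF c.2)) ρ₀) =
      eval (fun c => eval x ((G c.1).coeff (toF c.2))) ρ₀ := by
    have h2 := MvPolynomial.comp_aeval (R := k)
      (fun c : Coef (fun l => m (e2.symm l)) => (G c.1).coeff (toF c.2))
      (MvPolynomial.aeval x : MvPolynomial τ k →ₐ[k] k)
    exact DFunLike.congr_fun h2 ρ₀
  rw [h1, hρ₀]
  -- the values of the forms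
  have h2 : ∀ (v : Fin n → k) (l : Fin n), eval v (frm (fun l => m (e2.symm l))
      (fun c => eval x ((G c.1).coeff (toF c.2))) l) =
      eval (fun i => v (e1 i) ^ a i) (map (eval x) (E (e2.symm l))) := by
    intro v l
    rw [eval_frm]
    have h3 : (map (eval x) (G l)).IsHomogeneous (m (e2.symm l)) := (hGh l).map _
    have h4 := eval_eq_sum_mon (m (e2.symm l)) _ h3 v
    simp only [coeff_map] at h4
    rw [← h4, hG]
    beta_reduce
    rw [eval_map_aeval]
    congr 1
    congr 1
    funext i
    rw [map_pow, map_pow, map_X, eval_X]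
  constructor
  · rintro ⟨v, hv, hv0⟩
    refine ⟨fun i => v (e1 i) ^ a i, ?_, fun j => ?_⟩
    · intro h
      apply hv
      funext l
      have h3 := congrFun h (e1.symm l)
      simp only [Equiv.apply_symm_apply, Pi.zero_apply] at h3
      exact pow_eq_zero_iff (by have := ha (e1.symm l); omega) |>.1 h3
    · have h3 := hv0 (e2 j)
      rw [h2] at h3
      rwa [Equiv.symm_apply_apply] at h3
  · rintro ⟨u, hu, hu0⟩
    choose v hv using fun i : ι => IsAlgClosed.exists_pow_nat_eq (u i) (ha i)
    refine ⟨fun l => v (e1.symm l), ?_, fun l => ?_⟩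
    · intro h
      apply hu
      funext i
      have h3 := congrFun h (e1 i)
      simp only [Equiv.symm_apply_apply, Pi.zero_apply] at h3
      rw [← hv i, h3, zero_pow (by have := ha i; omega)]
      rfl
    · rw [h2]
      simp only [Equiv.symm_apply_apply, hv]
      exact hu0 _

end Pool.Agent.H.MP_2786f0_ag.h70
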