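import Mathlib

/-!
# Prime ideals of a polynomial ring without nonzero elements free of one variable are principal
-/

namespace Pool.Agent.H.MP_2786f0_ag.h70

open MvPolynomial

private theorem gauss_clear {A K : Type*} [CommRing A] [IsDomain A] [Field K] [Algebra A K]
    [IsFractionRing A K] (p : Polynomial K) : ∃ (d : A) (q : Polynomial A), d ≠ 0 ∧
      q.map (algebraMap A K) = Polynomial.C (algebraMap A K d) * p := by
  obtain ⟨b, hb, h⟩ := IsLocalization.integerNormalization_spec (nonZeroDivisors A) p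
  refine ⟨b, IsLocalization.integerNormalization (nonZeroDivisors A) p,
    nonZeroDivisors.ne_zero hb, ?_⟩
  rw [h, Algebra.smul_def, Polynomial.algebraMap_apply]

private theorem gauss_poly {A : Type*} [CommRing A] [IsDomain A] [UniqueFactorizationMonoid A]
    (T : Ideal (Polynomial A)) (hT : T.IsPrime) (hT0 : T ≠ ⊥)
    (h : ∀ a : A, Polynomial.C a ∈ T → a = 0) : ∃ P ∈ T, ∀ S ∈ T, P ∣ S := by
  obtain ⟨P, hPT, hP⟩ := hT.exists_mem_prime_of_ne_bot hT0
  have hdeg : P.natDegree ≠ 0 := by
    intro h0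
    rw [Polynomial.natDegree_eq_zero] at h0
    obtain ⟨a, rfl⟩ := h0
    have h1 := h a hPT
    rw [h1, map_zero] at hP
    exact hP.ne_zero rfl
  have hprim : P.IsPrimitive := hP.irreducible.isPrimitive hdeg
  have hirr : Irreducible (P.map (algebraMap A (FractionRing A))) :=
    hprim.irreducible_iff_irreducible_map_fraction_map.1 hP.irreducible
  refine ⟨P, hPT, fun S hS => ?_⟩
  rw [hprim.dvd_iff_fraction_map_dvd_fraction_map (FractionRing A)]
  by_contra hnd
  obtain ⟨a, b, hab⟩ := (hirr.coprime_iff_not_dvd).2 hnd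
  obtain ⟨d, a', hd, ha'⟩ := gauss_clear (A := A) a
  obtain ⟨d', b', hd', hb'⟩ := gauss_clear (A := A) b
  have h1 : Polynomial.C d' * a' * P + Polynomial.C d * b' * S = Polynomial.C (d * d') := by
    apply Polynomial.map_injective (algebraMap A (FractionRing A)) (IsFractionRing.injective _ _)
    rw [Polynomial.map_add, Polynomial.map_mul, Polynomial.map_mul, Polynomial.map_mul,
      Polynomial.map_mul, Polynomial.map_C, Polynomial.map_C, Polynomial.map_C, ha', hb', map_mul,
      map_mul]
    linear_combination (Polynomial.C (algebraMap A (FractionRing A) d) *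
      Polynomial.C (algebraMap A (FractionRing A) d')) * hab
  have h2 : Polynomial.C (d * d') ∈ T := by
    rw [← h1]
    exact T.add_mem (T.mul_mem_left _ hPT) (T.mul_mem_left _ hS)
  exact mul_ne_zero hd hd' (h _ h2)

/-- A nonzero prime ideal of a polynomial ring which contains no nonzero polynomial without the
variable `c` has an element which divides all its elements. -/
theorem exists_generator {k : Type*} [Field k] {σ : Type*} (c : σ)
    (T : Ideal (MvPolynomial σ k)) (hT : T.IsPrime) (hT0 : T ≠ ⊥)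
    (h : ∀ g : MvPolynomial {x : σ // x ≠ c} k, rename Subtype.val g ∈ T → g = 0) :
    ∃ ρ ∈ T, ∀ s ∈ T, ρ ∣ s := by
  classical
  obtain ⟨e, he⟩ : ∃ e : MvPolynomial σ k ≃ₐ[k] Polynomial (MvPolynomial {x : σ // x ≠ c} k),
      ∀ g : MvPolynomial {x : σ // x ≠ c} k, e (rename Subtype.val g) = Polynomial.C g := by
    refine ⟨(renameEquiv k (Equiv.optionSubtypeNe c).symm).trans
      (optionEquivLeft k {x : σ // x ≠ c}), fun g => ?_⟩
    induction g using MvPolynomial.induction_on with
    | C a =>
      rw [rename_C, AlgEquiv.trans_apply, renameEquiv_apply, rename_C, optionEquivLeft_C]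
    | add p q hp hq => rw [map_add, map_add, hp, hq, map_add]
    | mul_X p i hp =>
      rw [map_mul, map_mul, hp, rename_X, map_mul, AlgEquiv.trans_apply, renameEquiv_apply,
        rename_X]
      have h1 : (Equiv.optionSubtypeNe c).symm i.1 = some i := by
        rw [Equiv.symm_apply_eq]
        rfl
      rw [h1, optionEquivLeft_X_some]
  obtain ⟨T', hT'p, hmem⟩ : ∃ T' : Ideal (Polynomial (MvPolynomial {x : σ // x ≠ c} k)),
      T'.IsPrime ∧ ∀ x, x ∈ T' ↔ e.symm x ∈ T :=
    ⟨T.comap e.symm.toAlgHom.toRingHom, Ideal.comap_isPrime _ _, fun x => Iff.rfl⟩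
  have hT'0 : T' ≠ ⊥ := by
    intro h0
    apply hT0
    rw [eq_bot_iff]
    intro x hx
    have h1 : e x ∈ T' := by
      rw [hmem, AlgEquiv.symm_apply_apply]
      exact hx
    rw [h0, Ideal.mem_bot] at h1
    rw [Ideal.mem_bot]
    exact (map_eq_zero_iff e e.injective).1 h1
  obtain ⟨P, hP, hPd⟩ := gauss_poly T' hT'p hT'0 (fun a ha => by
    rw [hmem, ← he a, AlgEquiv.symm_apply_apply] at ha
    exact h a ha)
  refine ⟨e.symm P, (hmem P).1 hP, fun s hs => ?_⟩
  obtain ⟨q, hq⟩ := hPd (e s) (by
    rw [hmem, AlgEquiv.symm_apply_apply]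
    exact hs)
  refine ⟨e.symm q, ?_⟩
  rw [← map_mul, ← hq, AlgEquiv.symm_apply_apply]

end Pool.Agent.H.MP_2786f0_ag.h70
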