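import Mathlib

/-!
# Forms with unknown coefficients
-/

namespace Pool.Agent.H.MP_2786f0_ag.h70

open MvPolynomial

/-- The exponents of the monomials of degree `d` in `n` variables. -/
abbrev Mon (n d : ℕ) := {μ : Fin n → Fin (d + 1) // ∑ i, (μ i : ℕ) = d}

/-- The index set of the coefficients of `n` forms of degrees `m l` in `n` variables. -/
abbrev Coef {n : ℕ} (m : Fin n → ℕ) := Σ l : Fin n, Mon n (m l)

/-- The form number `l` with the coefficients `α`. -/
noncomputable def frm {n : ℕ} {R : Type*} [CommRing R] (m : Fin n → ℕ) (α : Coef m → R)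
    (l : Fin n) : MvPolynomial (Fin n) R :=
  ∑ μ : Mon n (m l), C (α ⟨l, μ⟩) * ∏ i, X i ^ (μ.1 i : ℕ)

theorem eval_frm {n : ℕ} {R : Type*} [CommRing R] (m : Fin n → ℕ) (α : Coef m → R) (l : Fin n)
    (u : Fin n → R) :
    eval u (frm m α l) = ∑ μ : Mon n (m l), α ⟨l, μ⟩ * ∏ i, u i ^ (μ.1 i : ℕ) := by
  simp [frm, map_sum, map_prod]

theorem map_frm {n : ℕ} {R S : Type*} [CommRing R] [CommRing S] (f : R →+* S) (m : Fin n → ℕ)
    (α : Coef m → R) (l : Fin n) : map f (frm m α l) = frm m (fun c => f (α c)) l := by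
  simp [frm, map_sum, map_prod]

/-- The exponent of `X r ^ d`. -/
def pur {n : ℕ} (r : Fin n) (d : ℕ) : Mon n d :=
  ⟨fun i => if i = r then Fin.last d else 0, by
    rw [Finset.sum_eq_single r]
    · simp
    · intro i _ hi
      simp [hi]
    · simp⟩

/-- The coefficients of the `X r ^ (m l)` are changed such that the forms vanish at `u`, `u r = 1`. -/
noncomputable def fix {n : ℕ} {R : Type*} [CommRing R] (m : Fin n → ℕ) (r : Fin n)
    (α : Coef m → R) (u : Fin n → R) : Coef m → R := fun c =>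
  open Classical in
  α c - if c.2 = pur r (m c.1) then eval (Function.update u r 1) (frm m α c.1) else 0

theorem prod_pur {n : ℕ} {R : Type*} [CommRing R] (r : Fin n) (d : ℕ) (u : Fin n → R) :
    ∏ i, u i ^ ((pur r d).1 i : ℕ) = u r ^ d := by
  rw [Finset.prod_eq_single r]
  · simp [pur]
  · intro i _ hi
    simp [pur, hi]
  · simp

theorem eval_fix {n : ℕ} {R : Type*} [CommRing R] (m : Fin n → ℕ) (r : Fin n)
    (α : Coef m → R) (u : Fin n → R) (l : Fin n) :
    eval (Function.update u r 1) (frm m (fix m r α u) l) = 0 := by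
  classical
  set u' := Function.update u r 1 with hu'
  rw [eval_frm]
  have h1 : ∀ μ : Mon n (m l), fix m r α u ⟨l, μ⟩ * ∏ i, u' i ^ (μ.1 i : ℕ) =
      α ⟨l, μ⟩ * ∏ i, u' i ^ (μ.1 i : ℕ) -
        if μ = pur r (m l) then eval u' (frm m α l) else 0 := by
    intro μ
    rw [fix]
    by_cases h : μ = pur r (m l)
    · simp only [h, if_true, sub_mul, prod_pur]
      have h2 : u' r = 1 := by rw [hu']; simp
      rw [h2, one_pow, mul_one, mul_one]
    · simp only [h, if_false, sub_zero]
  rw [Finset.sum_congr rfl fun μ _ => h1 μ, Finset.sum_sub_distrib, ← eval_frm,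
    Finset.sum_ite_eq']
  simp

/-- The universal family of forms which vanish at a point with `u r = 1`. -/
noncomputable def psi {k : Type*} [Field k] {n : ℕ} (m : Fin n → ℕ) (r : Fin n) :
    MvPolynomial (Coef m) k →ₐ[k] MvPolynomial (Coef m ⊕ Fin n) k :=
  aeval (fix m r (fun c => X (Sum.inl c)) (fun i => X (Sum.inr i)))

end Pool.Agent.H.MP_2786f0_ag.h70
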