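import Pool.Agent.H.MP_2786f0_ag.h70.R.Gen

/-!
# The kernel of the universal family of forms with a zero
-/

namespace Pool.Agent.H.MP_2786f0_ag.h70

open MvPolynomial

/-- naturality of `fix` -/
theorem Ker_map_fix {n : ℕ} {R S : Type*} [CommRing R] [CommRing S] (f : R →+* S) (m : Fin n → ℕ)
    (r : Fin n) (α : Coef m → R) (u : Fin n → R) (c : Coef m) :
    f (fix m r α u c) = fix m r (fun c => f (α c)) (fun i => f (u i)) c := by
  classical
  have hu : ∀ i, f (Function.update u r 1 i) = Function.update (fun i => f (u i)) r 1 i := by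
    intro i
    by_cases hi : i = r
    · subst hi; simp
    · simp [hi]
  unfold fix
  rw [map_sub]
  congr 1
  by_cases h : c.2 = pur r (m c.1)
  · rw [if_pos h, if_pos h, eval_frm, eval_frm, map_sum]
    refine Finset.sum_congr rfl fun μ _ => ?_
    rw [map_mul, map_prod]
    congr 1
    refine Finset.prod_congr rfl fun i _ => ?_
    rw [map_pow, hu]
  · rw [if_neg h, if_neg h, map_zero]

theorem eval_psi {k : Type*} [Field k] {n : ℕ} (m : Fin n → ℕ) (r : Fin n) (α : Coef m → k)
    (u : Fin n → k) (ρ : MvPolynomial (Coef m) k) :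
    eval (Sum.elim α u) (psi m r ρ) = eval (fix m r α u) ρ := by
  have h : (eval (Sum.elim α u)).comp (psi m r : MvPolynomial (Coef m) k →ₐ[k]
      MvPolynomial (Coef m ⊕ Fin n) k).toRingHom = eval (fix m r α u) := by
    apply MvPolynomial.ringHom_ext
    · intro a
      simp [psi]
    · intro c
      have e : (eval (Sum.elim α u)).comp (psi m r : MvPolynomial (Coef m) k →ₐ[k]
          MvPolynomial (Coef m ⊕ Fin n) k).toRingHom (X c) =
          eval (Sum.elim α u) (fix m r (fun c => X (Sum.inl c)) (fun i => X (Sum.inr i)) c) := by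
        simp [psi]
      rw [e, Ker_map_fix]
      simp
  exact congrArg (fun g => g ρ) h

theorem psi_eq_zero {k : Type*} [Field k] {n : ℕ} (m : Fin n → ℕ) (r : Fin n) (M : ℕ)
    (ρ : MvPolynomial (Coef m) k)
    (h : C ρ * X r ^ M ∈ Ideal.span (Set.range (frm m (X : Coef m → MvPolynomial (Coef m) k)))) :
    psi m r ρ = 0 := by
  set g : Fin n → MvPolynomial (Coef m ⊕ Fin n) k :=
    Function.update (fun i => X (Sum.inr i)) r 1 with hg
  set Φ : MvPolynomial (Fin n) (MvPolynomial (Coef m) k) →+* MvPolynomial (Coef m ⊕ Fin n) k :=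
    eval₂Hom (psi m r : MvPolynomial (Coef m) k →ₐ[k] MvPolynomial (Coef m ⊕ Fin n) k).toRingHom g
    with hΦ
  have h1 : Ideal.span (Set.range (frm m (X : Coef m → MvPolynomial (Coef m) k))) ≤
      RingHom.ker Φ := by
    rw [Ideal.span_le]
    rintro _ ⟨l, rfl⟩
    show Φ (frm m X l) = 0
    have e1 : Φ (frm m X l) = eval g (map (psi m r : MvPolynomial (Coef m) k →ₐ[k]
        MvPolynomial (Coef m ⊕ Fin n) k).toRingHom (frm m X l)) := by
      rw [hΦ, coe_eval₂Hom, eval_map]
    have e2 : (fun c : Coef m => (psi m r : MvPolynomial (Coef m) k →ₐ[k]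
        MvPolynomial (Coef m ⊕ Fin n) k).toRingHom (X c)) =
        fix m r (fun c => X (Sum.inl c)) (fun i => X (Sum.inr i)) := by
      funext c
      simp [psi]
    rw [e1, map_frm, e2, hg]
    exact eval_fix m r _ _ l
  have h2 : Φ (C ρ * X r ^ M) = 0 := h1 h
  have h3 : Φ (C ρ * X r ^ M) = psi m r ρ := by
    rw [map_mul, map_pow, hΦ, coe_eval₂Hom, eval₂_C, eval₂_X, hg]
    simp
  rw [← h3, h2]

private theorem Ker_zero {k : Type*} [Field k] {n : ℕ} (m : Fin n → ℕ) (r : Fin n)
    (ρ : MvPolynomial (Coef m) k) (h : psi m r ρ = 0) (α : Coef m → k) (u : Fin n → k)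
    (hu : u r ≠ 0) (hα : ∀ l, eval u (frm m α l) = 0) : eval α ρ = 0 := by
  classical
  set v : Fin n → k := fun i => (u r)⁻¹ * u i with hv
  have hvr : v r = 1 := by rw [hv]; exact inv_mul_cancel₀ hu
  have hv0 : ∀ l, eval v (frm m α l) = 0 := by
    intro l
    have e : eval v (frm m α l) = (u r)⁻¹ ^ (m l) * eval u (frm m α l) := by
      rw [eval_frm, eval_frm, Finset.mul_sum]
      refine Finset.sum_congr rfl fun μ _ => ?_
      have e1 : ∏ i, v i ^ (μ.1 i : ℕ) = (u r)⁻¹ ^ (m l) * ∏ i, u i ^ (μ.1 i : ℕ) := by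
        rw [hv]
        simp only [mul_pow]
        rw [Finset.prod_mul_distrib, Finset.prod_pow_eq_pow_sum, μ.2]
      rw [e1]
      ring
    rw [e, hα l, mul_zero]
  have hup : Function.update v r 1 = v := by
    rw [← hvr]; exact Function.update_eq_self r v
  have hfix : fix m r α v = α := by
    funext c
    unfold fix
    rw [hup, hv0 c.1]
    simp
  have h1 := eval_psi m r α v ρ
  rw [h, map_zero, hfix] at h1
  exact h1.symm

theorem eval_eq_zero_of_psi {k : Type*} [Field k] [Infinite k] {n : ℕ} (m : Fin n → ℕ) (r : Fin n)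
    (ρ : MvPolynomial (Coef m) k) (h : psi m r ρ = 0) (α : Coef m → k) (u : Fin n → k)
    (hu : u ≠ 0) (hα : ∀ l, eval u (frm m α l) = 0) : eval α ρ = 0 := by
  classical
  by_cases hr : u r = 0
  swap
  · exact Ker_zero m r ρ h α u hr hα
  obtain ⟨r', hr'⟩ : ∃ r', u r' ≠ 0 := by
    by_contra hcon
    push Not at hcon
    exact hu (funext hcon)
  have hne : r ≠ r' := by
    rintro rfl
    exact hr' hr
  have h1 : psi m r' ρ * X (Sum.inr r) = 0 := by
    apply MvPolynomial.funext
    intro y
    rw [map_mul, map_zero, eval_X]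
    by_cases hy : y (Sum.inr r) = 0
    · rw [hy, mul_zero]
    · have e : y = Sum.elim (fun c => y (Sum.inl c)) (fun i => y (Sum.inr i)) := by
        funext z
        cases z <;> rfl
      have e2 : eval y (psi m r' ρ) =
          eval (fix m r' (fun c => y (Sum.inl c)) (fun i => y (Sum.inr i))) ρ := by
        conv_lhs => rw [e]
        exact eval_psi m r' _ _ ρ
      rw [e2, Ker_zero m r ρ h _ (Function.update (fun i => y (Sum.inr i)) r' 1), zero_mul]
      · rw [Function.update_of_ne hne]
        exact hy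
      · intro l
        exact eval_fix m r' _ _ l
  have h2 : psi m r' ρ = 0 := by
    rcases mul_eq_zero.1 h1 with h2 | h2
    · exact h2
    · exact absurd h2 (X_ne_zero _)
  exact Ker_zero m r' ρ h2 α u hr' hα

end Pool.Agent.H.MP_2786f0_ag.h70
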