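import Pool.Agent.H.MP_2786f0_ag.h70.R.Nak
import Pool.Agent.H.MP_2786f0_ag.h70.R.Ker
import Pool.Agent.H.MP_2786f0_ag.Zero

/-!
# The universal family of forms with a zero: injectivity on the polynomials without the coefficient of a pure power
-/

namespace Pool.Agent.H.MP_2786f0_ag.h70

open MvPolynomial

private theorem inj_eval_aeval {k σ τ : Type*} [Field k] (α : τ → k) (f : σ → MvPolynomial τ k)
    (P : MvPolynomial σ k) : eval α (aeval f P) = eval (fun i => eval α (f i)) P := by
  induction P using MvPolynomial.induction_on with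
  | C a => simp
  | add p q hp hq => rw [map_add, map_add, map_add, hp, hq]
  | mul_X p i hp => rw [map_mul, map_mul, map_mul, hp, aeval_X, eval_X]

private theorem inj_eval_zero {k : Type*} [Field k] {n : ℕ} (m : Fin n → ℕ) (hm : ∀ l, 1 ≤ m l)
    (α : Coef m → k) (l : Fin n) : eval (fun _ => 0) (frm m α l) = 0 := by
  rw [eval_frm]
  refine Finset.sum_eq_zero fun μ _ => ?_
  have h1 : ∃ i, (μ.1 i : ℕ) ≠ 0 := by
    by_contra hcon
    push Not at hcon
    have h2 := μ.2
    rw [Finset.sum_eq_zero fun i _ => hcon i] at h2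
    have := hm l
    omega
  obtain ⟨i, hi⟩ := h1
  have h2 : ∏ i, (fun _ : Fin n => (0 : k)) i ^ (μ.1 i : ℕ) = 0 :=
    Finset.prod_eq_zero (Finset.mem_univ i) (zero_pow hi)
  rw [h2, mul_zero]

private theorem inj_eval_pur {k : Type*} [Field k] {n : ℕ} (m : Fin n → ℕ) (α : Coef m → k)
    (l s : Fin n) (h : ∀ μ, α ⟨l, μ⟩ = open Classical in if μ = pur s (m l) then 1 else 0)
    (u : Fin n → k) : eval u (frm m α l) = u s ^ m l := by
  classical
  rw [eval_frm, Finset.sum_eq_single (pur s (m l))]
  · rw [h, prod_pur, if_pos rfl, one_mul]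
  · intro μ _ hμ
    rw [h, if_neg hμ, zero_mul]
  · intro h1
    exact absurd (Finset.mem_univ _) h1

private theorem inj_eval_congr {k : Type*} [Field k] {n : ℕ} (m : Fin n → ℕ) (α α' : Coef m → k)
    (l : Fin n) (h : ∀ μ, α ⟨l, μ⟩ = α' ⟨l, μ⟩)
    (u : Fin n → k) : eval u (frm m α l) = eval u (frm m α' l) := by
  rw [eval_frm, eval_frm]
  exact Finset.sum_congr rfl fun μ _ => by rw [h]

theorem psi_inj {k : Type*} [Field k] [IsAlgClosed k] {n : ℕ} (m : Fin n → ℕ)
    (hm : ∀ l, 1 ≤ m l) (r l₀ : Fin n) (g : MvPolynomial (Coef m) k)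
    (hg : ∀ α α' : Coef m → k, (∀ c, c ≠ ⟨l₀, pur r (m l₀)⟩ → α c = α' c) →
      eval α g = eval α' g) (h : psi m r g = 0) : g = 0 := by
  classical
  -- the pure powers
  set α₀ : Coef m → k := fun c => if c.2 = pur (Equiv.swap l₀ r c.1) (m c.1) then 1 else 0 with hα₀
  have hz : ∀ u : Fin n → k, (∀ l, eval u (frm m α₀ l) = 0) → u = 0 := by
    intro u hu
    funext i
    have h1 := hu (Equiv.swap l₀ r i)
    rw [inj_eval_pur m α₀ _ i (by
      intro μ
      simp only [hα₀, Equiv.swap_apply_self])] at h1
    exact pow_eq_zero_iff (by have := hm (Equiv.swap l₀ r i); omega) |>.1 h1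
  obtain ⟨ρ, hρ, M, hM⟩ := nak m α₀ hz
  have hψ : psi m r ρ = 0 := psi_eq_zero m r M ρ (hM r)
  -- the block `l₀` is replaced by the pure power of `X r`
  set f : Coef m → MvPolynomial (Coef m) k := fun c =>
    if c.1 = l₀ then (if c.2 = pur r (m c.1) then 1 else 0) else X c with hf
  set sharp : (Coef m → k) → Coef m → k := fun α c =>
    if c.1 = l₀ then (if c.2 = pur r (m c.1) then 1 else 0) else α c with hsharp
  have hfs : ∀ α : Coef m → k, (fun i => eval α (f i)) = sharp α := by
    intro α
    funext c
    simp only [hf, hsharp]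
    split_ifs <;> simp
  have hsα₀ : sharp α₀ = α₀ := by
    funext c
    obtain ⟨l, μ⟩ := c
    simp only [hsharp, hα₀]
    by_cases hl : l = l₀
    · subst hl
      simp
    · rw [if_neg hl]
  have hne : aeval f ρ ≠ 0 := by
    intro h0
    have h1 : eval α₀ (aeval f ρ) = eval α₀ ρ := by
      rw [inj_eval_aeval, hfs, hsα₀]
    rw [h0, map_zero] at h1
    exact hρ h1.symm
  have hmul : g * aeval f ρ = 0 := by
    apply MvPolynomial.funext
    intro α
    rw [map_mul, map_zero]
    by_cases h0 : eval α (aeval f ρ) = 0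
    · rw [h0, mul_zero]
    rw [inj_eval_aeval, hfs] at h0
    have hno : ∀ u : Fin n → k, u ≠ 0 → ¬ ∀ l, eval u (frm m (sharp α) l) = 0 :=
      fun u hu hα => h0 (eval_eq_zero_of_psi m r ρ hψ (sharp α) u hu hα)
    have hcard : Fintype.card {l : Fin n // l ≠ l₀} < Fintype.card (Fin n) :=
      Fintype.card_subtype_lt (x := l₀) (by simp)
    obtain ⟨u, hu, hul⟩ := exists_zero hcard (fun l => frm m α l.1)
      (fun l => inj_eval_zero m hm α l.1)
    have hur : u r ≠ 0 := by
      intro hur
      refine hno u hu fun l => ?_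
      by_cases hl : l = l₀
      · subst hl
        rw [inj_eval_pur m (sharp α) l r (by
          intro μ
          simp only [hsharp, if_true]), hur]
        exact zero_pow (by have := hm l; omega)
      · rw [inj_eval_congr m (sharp α) α l (by
          intro μ
          simp only [hsharp, hl, if_false])]
        exact hul ⟨l, hl⟩
    set e : k := eval u (frm m α l₀) / u r ^ m l₀ with he
    set c₀ : Coef m := ⟨l₀, pur r (m l₀)⟩ with hc₀
    set α' : Coef m → k := Function.update α c₀ (α c₀ - e) with hα'
    have h1 : eval α' g = 0 := by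
      refine eval_eq_zero_of_psi m r g h α' u hu fun l => ?_
      by_cases hl : l = l₀
      · subst hl
        have h2 : ∀ μ : Mon n (m l), α' ⟨l, μ⟩ * ∏ i, u i ^ (μ.1 i : ℕ) =
            α ⟨l, μ⟩ * ∏ i, u i ^ (μ.1 i : ℕ) -
              if μ = pur r (m l) then e * u r ^ m l else 0 := by
          intro μ
          by_cases hμ : μ = pur r (m l)
          · subst hμ
            simp only [if_true, prod_pur]
            rw [hα', ← hc₀, Function.update_self]
            ring
          · have h3 : (⟨l, μ⟩ : Coef m) ≠ c₀ := by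
              intro h4
              rw [hc₀] at h4
              simp only [Sigma.mk.injEq, heq_eq_eq, true_and] at h4
              exact hμ h4
            rw [hα', Function.update_of_ne h3, if_neg hμ, sub_zero]
        rw [eval_frm, Finset.sum_congr rfl fun μ _ => h2 μ, Finset.sum_sub_distrib, ← eval_frm,
          Finset.sum_ite_eq']
        simp only [Finset.mem_univ, if_true]
        rw [he, div_mul_cancel₀ _ (pow_ne_zero _ hur), sub_self]
      · rw [inj_eval_congr m α' α l (by
          intro μ
          rw [hα', Function.update_of_ne]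
          intro h4
          rw [hc₀] at h4
          exact hl (congrArg Sigma.fst h4))]
        exact hul ⟨l, hl⟩
    have h2 : eval α g = eval α' g := by
      refine hg α α' fun c hc => ?_
      rw [hα', Function.update_of_ne hc]
    rw [h2, h1, zero_mul]
  exact (mul_eq_zero.1 hmul).resolve_right hne

end Pool.Agent.H.MP_2786f0_ag.h70
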