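import Pool.Agent.H.MP_2786f0_ag.h70.R.Gen

/-!
# Forms without common zero: a denominator which kills the powers of the variables

If the forms with the coefficients `α` have only the zero `0`, the monomials of large degree `M` lie
in their ideal (Nullstellensatz). By Nakayama's lemma a polynomial `ρ` with `ρ(α) ≠ 0` in the unknown
coefficients moves the monomials of degree `M` into the ideal of the universal forms.
-/

namespace Pool.Agent.H.MP_2786f0_ag.h70

open MvPolynomial

private noncomputable def nakMf {n d : ℕ} (μ : Mon n d) : Fin n →₀ ℕ :=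
  Finsupp.equivFunOnFinite.symm (fun i => (μ.1 i : ℕ))

private theorem nak_prod {n d : ℕ} {R : Type*} [CommRing R] (μ : Mon n d) :
    (∏ i, X i ^ (μ.1 i : ℕ) : MvPolynomial (Fin n) R) = monomial (nakMf μ) 1 := by
  rw [monomial_eq, C_1, one_mul, Finsupp.prod_fintype _ _ (by simp)]
  rfl

private theorem nak_degree {n d : ℕ} (μ : Mon n d) : (nakMf μ).degree = d := by
  rw [Finsupp.degree_eq_sum]
  exact μ.2

private theorem nak_frm {n : ℕ} {R : Type*} [CommRing R] (m : Fin n → ℕ) (α : Coef m → R)
    (l : Fin n) : frm m α l = ∑ μ : Mon n (m l), monomial (nakMf μ) (α ⟨l, μ⟩) := by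
  rw [frm]
  refine Finset.sum_congr rfl fun μ _ => ?_
  rw [nak_prod, C_mul_monomial, mul_one]

private theorem nak_hom {n : ℕ} {R : Type*} [CommRing R] (m : Fin n → ℕ) (α : Coef m → R)
    (l : Fin n) : (frm m α l).IsHomogeneous (m l) := by
  rw [nak_frm]
  exact IsHomogeneous.sum _ _ _ fun μ _ => isHomogeneous_monomial _ (nak_degree μ)

/-- The products of the forms and monomials, of degree `M`. -/
private def nakG {n : ℕ} {R : Type*} [CommRing R] (m : Fin n → ℕ) (α : Coef m → R) (M : ℕ) :
    Set (MvPolynomial (Fin n) R) :=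
  {p | ∃ (ν : Fin n →₀ ℕ) (l : Fin n), ν.degree + m l = M ∧ p = monomial ν 1 * frm m α l}

private theorem nak_comp {n : ℕ} {k : Type*} [Field k] (m : Fin n → ℕ) (α : Coef m → k) (M : ℕ)
    (p : MvPolynomial (Fin n) k) (hp : p ∈ Ideal.span (Set.range (frm m α))) :
    homogeneousComponent M p ∈ Submodule.span k (nakG m α M) := by
  obtain ⟨g, rfl⟩ := Ideal.mem_span_range_iff_exists_fun.1 hp
  rw [map_sum]
  refine Submodule.sum_mem _ fun l _ => ?_
  have h1 : g l * frm m α l =
      ∑ ν ∈ (g l).support, (coeff ν (g l)) • (monomial ν 1 * frm m α l) := by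
    conv_lhs => rw [(g l).as_sum, Finset.sum_mul]
    refine Finset.sum_congr rfl fun ν _ => ?_
    rw [← smul_mul_assoc, smul_monomial, smul_eq_mul, mul_one]
  rw [h1, map_sum]
  refine Submodule.sum_mem _ fun ν _ => ?_
  rw [map_smul]
  refine Submodule.smul_mem _ _ ?_
  have h2 : (monomial ν (1 : k) * frm m α l).IsHomogeneous (ν.degree + m l) :=
    (isHomogeneous_monomial _ rfl).mul (nak_hom m α l)
  rw [homogeneousComponent_of_mem h2]
  split_ifs with h
  · exact Submodule.subset_span ⟨ν, l, h.symm, rfl⟩
  · exact Submodule.zero_mem _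

theorem nak {k : Type*} [Field k] [IsAlgClosed k] {n : ℕ} (m : Fin n → ℕ)
    (α : Coef m → k) (h : ∀ u : Fin n → k, (∀ l, eval u (frm m α l) = 0) → u = 0) :
    ∃ ρ : MvPolynomial (Coef m) k, eval α ρ ≠ 0 ∧ ∃ M : ℕ, ∀ r : Fin n,
      C ρ * X r ^ M ∈ Ideal.span (Set.range (frm m (X : Coef m → MvPolynomial (Coef m) k))) := by
  classical
  have h1 : ∀ r : Fin n, ∃ M, (X r : MvPolynomial (Fin n) k) ^ M ∈
      Ideal.span (Set.range (frm m α)) := by
    intro r
    have h2 : (X r : MvPolynomial (Fin n) k) ∈ (Ideal.span (Set.range (frm m α))).radical := by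
      rw [← vanishingIdeal_zeroLocus_eq_radical (K := k)]
      intro x hx
      have hx0 : x = 0 := h x fun l => hx (frm m α l) (Ideal.subset_span ⟨l, rfl⟩)
      rw [hx0]
      simp
    exact h2
  choose Mr hMr using h1
  set M0 := ∑ r, Mr r with hM0
  set M := n * M0 + 1 with hM
  have h2 : ∀ μ : Fin n →₀ ℕ, μ.degree = M →
      monomial μ (1 : k) ∈ Ideal.span (Set.range (frm m α)) := by
    intro μ hμ
    have h3 : ∃ r, M0 ≤ μ r := by
      by_contra hno
      push Not at hno
      have h4 : μ.degree ≤ ∑ _i : Fin n, M0 := by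
        rw [Finsupp.degree_eq_sum]
        exact Finset.sum_le_sum fun i _ => (hno i).le
      rw [Finset.sum_const, Finset.card_univ, Fintype.card_fin, smul_eq_mul] at h4
      omega
    obtain ⟨r, hr⟩ := h3
    have h4 : Mr r ≤ μ r := (Finset.single_le_sum (fun i _ => Nat.zero_le _)
      (Finset.mem_univ r)).trans hr
    have h5 : monomial μ (1 : k) = monomial (μ - Finsupp.single r (Mr r)) 1 * X r ^ (Mr r) := by
      rw [X_pow_eq_monomial, monomial_mul, mul_one,
        tsub_add_cancel_of_le (Finsupp.single_le_iff.2 h4)]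
    rw [h5]
    exact Ideal.mul_mem_left _ _ (hMr r)
  have h3 : ∀ μ : Fin n →₀ ℕ, μ.degree = M →
      monomial μ (1 : k) ∈ Submodule.span k (nakG m α M) := by
    intro μ hμ
    have h4 := nak_comp m α M _ (h2 μ hμ)
    rwa [homogeneousComponent_eq_self (isHomogeneous_monomial _ hμ)] at h4
  -- Nakayama
  set I : Submodule (MvPolynomial (Coef m) k) (MvPolynomial (Fin n) (MvPolynomial (Coef m) k)) :=
    (Ideal.span (Set.range (frm m (X : Coef m → MvPolynomial (Coef m) k)))).restrictScalars _
    with hI
  set Ge : Set (MvPolynomial (Fin n) (MvPolynomial (Coef m) k)) :=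
    (fun μ : Fin n →₀ ℕ => monomial μ 1) '' {μ | μ.degree = M} with hGe
  set N : Submodule (MvPolynomial (Coef m) k) (MvPolynomial (Fin n) (MvPolynomial (Coef m) k)) :=
    Submodule.span _ Ge with hN
  set mm : Ideal (MvPolynomial (Coef m) k) := RingHom.ker (eval α) with hmm
  have hfg : N.FG := Submodule.fg_span ((Finsupp.finite_of_degree_eq M).image _)
  have hle : N ≤ I ⊔ mm • N := by
    rw [hN, Submodule.span_le]
    rintro _ ⟨μ, hμ, rfl⟩
    have h4 : ∀ p ∈ Submodule.span k (nakG m α M),
        map (C : k →+* MvPolynomial (Coef m) k) p ∈ I ⊔ mm • N := by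
      intro p hp
      induction hp using Submodule.span_induction with
      | mem p hp =>
        obtain ⟨ν, l, hν, rfl⟩ := hp
        rw [map_mul, map_monomial, map_frm, C_1]
        have h5 : monomial ν 1 * frm m (fun c => (C (α c) : MvPolynomial (Coef m) k)) l =
            monomial ν 1 * frm m (X : Coef m → MvPolynomial (Coef m) k) l +
            ∑ κ : Mon n (m l), (C (α ⟨l, κ⟩) - X ⟨l, κ⟩ : MvPolynomial (Coef m) k) •
              monomial (ν + nakMf κ) (1 : MvPolynomial (Coef m) k) := by
          rw [nak_frm, nak_frm, Finset.mul_sum, Finset.mul_sum, ← Finset.sum_add_distrib]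
          refine Finset.sum_congr rfl fun κ _ => ?_
          rw [monomial_mul, monomial_mul, smul_monomial, ← map_add]
          congr 1
          rw [smul_eq_mul]
          ring
        rw [h5]
        refine Submodule.add_mem _ (Submodule.mem_sup_left ?_) (Submodule.mem_sup_right ?_)
        · exact Ideal.mul_mem_left _ _ (Ideal.subset_span ⟨l, rfl⟩)
        · refine Submodule.sum_mem _ fun κ _ => Submodule.smul_mem_smul ?_ ?_
          · rw [hmm, RingHom.mem_ker]
            simp
          · refine Submodule.subset_span ⟨ν + nakMf κ, ?_, rfl⟩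
            show (ν + nakMf κ).degree = M
            rw [map_add, nak_degree, hν]
      | zero => rw [map_zero]; exact Submodule.zero_mem _
      | add p q _ _ hp hq => rw [map_add]; exact Submodule.add_mem _ hp hq
      | smul a p _ hp =>
        have h5 : map (C : k →+* MvPolynomial (Coef m) k) (a • p) =
            (C a : MvPolynomial (Coef m) k) • map (C : k →+* MvPolynomial (Coef m) k) p := by
          rw [smul_eq_C_mul, map_mul, map_C, ← smul_eq_C_mul]
        rw [h5]
        exact Submodule.smul_mem _ _ hp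
    have h5 := h4 _ (h3 μ hμ)
    rwa [map_monomial, C_1] at h5
  obtain ⟨ρ, hρ, hρ'⟩ := Submodule.exists_sub_one_mem_and_smul_le_of_fg_of_le_sup hfg le_rfl hle
  refine ⟨ρ, ?_, M, fun r => ?_⟩
  · rw [hmm, RingHom.mem_ker, map_sub, map_one, sub_eq_zero] at hρ
    rw [hρ]
    exact one_ne_zero
  · have h6 : (monomial (Finsupp.single r M) 1 : MvPolynomial (Fin n) (MvPolynomial (Coef m) k))
        ∈ N := by
      refine Submodule.subset_span ⟨Finsupp.single r M, ?_, rfl⟩
      show (Finsupp.single r M).degree = M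
      simp
    have h7 := hρ' (Submodule.smul_mem_pointwise_smul _ ρ N h6)
    rw [hI, Submodule.restrictScalars_mem, smul_eq_C_mul] at h7
    rw [X_pow_eq_monomial]
    exact h7

end Pool.Agent.H.MP_2786f0_ag.h70
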