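import Pool.Agent.H.MP_2786f0_ag.h70.R.Inj
import Pool.Agent.H.MP_2786f0_ag.h70.R.Gauss

/-!
# The resultant
-/

namespace Pool.Agent.H.MP_2786f0_ag.h70

open MvPolynomial

/-- The forms `X l ^ m l` have no common zero besides `0`. -/
theorem exists_coef {k : Type*} [Field k] {n : ℕ} (m : Fin n → ℕ) (hm : ∀ l, 1 ≤ m l) :
    ∃ α : Coef m → k, ∀ u : Fin n → k, (∀ l, eval u (frm m α l) = 0) → u = 0 := by
  classical
  refine ⟨fun c => if c.2 = pur c.1 (m c.1) then 1 else 0, fun u hu => ?_⟩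
  funext l
  have h1 := hu l
  rw [eval_frm, Finset.sum_eq_single (pur l (m l))] at h1
  · simp only [if_true, one_mul, prod_pur] at h1
    exact pow_eq_zero_iff (by have := hm l; omega) |>.1 h1
  · intro μ _ hμ
    simp only [if_neg hμ, zero_mul]
  · intro h
    exact absurd (Finset.mem_univ _) h

/-- **The resultant.** -/
theorem res {k : Type*} [Field k] [IsAlgClosed k] {n : ℕ} (m : Fin n → ℕ) (hm : ∀ l, 1 ≤ m l) :
    ∃ ρ : MvPolynomial (Coef m) k, ∀ α : Coef m → k, eval α ρ = 0 ↔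
      ∃ u : Fin n → k, u ≠ 0 ∧ ∀ l, eval u (frm m α l) = 0 := by
  classical
  have := IsAlgClosed.instInfinite (K := k)
  rcases n with _ | n
  · refine ⟨1, fun α => ⟨fun h => ?_, ?_⟩⟩
    · rw [map_one] at h
      exact absurd h one_ne_zero
    · rintro ⟨u, hu, _⟩
      exact absurd (Subsingleton.elim _ _) hu
  · set T : Ideal (MvPolynomial (Coef m) k) := RingHom.ker (psi (k := k) m 0) with hT
    have hTp : T.IsPrime := RingHom.ker_isPrime _
    have hT0 : T ≠ ⊥ := by
      obtain ⟨α, hα⟩ := exists_coef (k := k) m hm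
      obtain ⟨ρ, h1, M, h2⟩ := nak m α hα
      intro h
      have h3 : ρ ∈ T := by
        rw [hT, RingHom.mem_ker]
        exact psi_eq_zero m 0 M ρ (h2 0)
      rw [h, Ideal.mem_bot] at h3
      rw [h3, map_zero] at h1
      exact h1 rfl
    obtain ⟨ρ, hρ, hdvd⟩ := exists_generator (⟨0, pur 0 (m 0)⟩ : Coef m) T hTp hT0 (by
      intro g hg
      apply rename_injective _ Subtype.val_injective
      rw [map_zero]
      refine psi_inj m hm 0 0 _ (fun α α' h => ?_) (by rwa [hT, RingHom.mem_ker] at hg)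
      rw [eval_rename, eval_rename]
      have h1 : α ∘ (Subtype.val : {x : Coef m // x ≠ ⟨0, pur 0 (m 0)⟩} → Coef m) =
          α' ∘ Subtype.val := by
        funext c
        exact h c.1 c.2
      rw [h1])
    rw [hT, RingHom.mem_ker] at hρ
    refine ⟨ρ, fun α => ⟨fun h => ?_, ?_⟩⟩
    · by_contra hcon
      push Not at hcon
      obtain ⟨ρ₁, h1, M, h2⟩ := nak m α (fun u hu => by
        by_contra hu0
        obtain ⟨l, hl⟩ := hcon u hu0
        exact hl (hu l))
      obtain ⟨s, rfl⟩ := hdvd ρ₁ (by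
        rw [hT, RingHom.mem_ker]
        exact psi_eq_zero m 0 M ρ₁ (h2 0))
      apply h1
      rw [map_mul, h, zero_mul]
    · rintro ⟨u, hu, hu0⟩
      exact eval_eq_zero_of_psi m 0 ρ hρ α u hu hu0

end Pool.Agent.H.MP_2786f0_ag.h70
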